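import Mathlib
import Pool.Agent.H699.MX.Defs

/-! MX STP: if the slack is small at a point, it is small for all children, near to all the
corresponding points. -/

set_option autoImplicit false

open MeasureTheory Finset
open scoped Classical

namespace Pool.Agent.H111.MX.STP

open Pool.Agent.H699.MX

lemma real_Ioi_one {ν : Measure ℝ} [IsProbabilityMeasure ν] {x v : ℝ} (h : ν (Set.Iio x) = 0)
    (hv : v < x) : ν.real (Set.Ioi v) = 1 := by
  have h1 : ν.real (Set.Iic v) = 0 := by
    have h0 : ν (Set.Iic v) = 0 :=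
      measure_mono_null (fun y (hy : y ≤ v) => lt_of_le_of_lt hy hv) h
    rw [measureReal_def, h0, ENNReal.toReal_zero]
  rw [← Set.compl_Iic, probReal_compl_eq_one_sub measurableSet_Iic, h1, sub_zero]

lemma slack_nonneg {S : ℝ} {νm νp : Measure ℝ} [IsProbabilityMeasure νm] [IsProbabilityMeasure νp]
    (h0 : νm (Set.Iio 0) = 0) (hD : Dom S νm νp) (v : ℝ) : 0 ≤ slack S νm νp v := by
  unfold slack
  rcases le_or_gt 0 v with hv | hv
  · exact sub_nonneg.2 (hD v hv)
  · rw [real_Ioi_one h0 hv]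
    have : νp.real (Set.Ioi (v + S)) ≤ 1 := measureReal_le_one
    linarith

lemma meas_Ioi (ν : Measure ℝ) [IsProbabilityMeasure ν] : Measurable fun v : ℝ => ν.real (Set.Ioi v) :=
  Antitone.measurable fun _ _ hxy => measureReal_mono (Set.Ioi_subset_Ioi hxy)

lemma slack_int {S t : ℝ} {μ νm νp : Measure ℝ} [IsProbabilityMeasure μ] [IsProbabilityMeasure νm]
    [IsProbabilityMeasure νp] : Integrable (fun w => slack S νm νp (w - t - S)) μ := by
  refine Integrable.of_bound (C := 1) ?_ ?_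
  · have h1 : Measurable fun w : ℝ => νm.real (Set.Ioi (w - t - S)) :=
      (meas_Ioi νm).comp (by fun_prop)
    have h2 : Measurable fun w : ℝ => νp.real (Set.Ioi (w - t - S + S)) :=
      (meas_Ioi νp).comp (by fun_prop)
    exact (h1.sub h2).aestronglyMeasurable
  · filter_upwards with w
    unfold slack
    have h1 : νm.real (Set.Ioi (w - t - S)) ≤ 1 := measureReal_le_one
    have h2 : νp.real (Set.Ioi (w - t - S + S)) ≤ 1 := measureReal_le_one
    have h3 : 0 ≤ νm.real (Set.Ioi (w - t - S)) := measureReal_nonneg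
    have h4 : 0 ≤ νp.real (Set.Ioi (w - t - S + S)) := measureReal_nonneg
    rw [Real.norm_eq_abs, abs_le]
    constructor <;> linarith

lemma lower {μ : Measure ℝ} [IsProbabilityMeasure μ] {f : ℝ → ℝ} (hf0 : ∀ w, 0 ≤ f w)
    (hfi : Integrable f μ) {c x y : ℝ} (hc : ∀ w, x ≤ w → w ≤ y → c ≤ f w) :
    c * μ.real (Set.Icc x y) ≤ ∫ w, f w ∂μ := by
  have h1 : ∫ _w in Set.Icc x y, c ∂μ ≤ ∫ w in Set.Icc x y, f w ∂μ :=
    setIntegral_mono_on (integrable_const c).integrableOn hfi.integrableOn measurableSet_Icc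
      (fun w hw => hc w hw.1 hw.2)
  have h2 : ∫ w in Set.Icc x y, f w ∂μ ≤ ∫ w, f w ∂μ :=
    setIntegral_le_integral hfi (Filter.Eventually.of_forall hf0)
  rw [setIntegral_const, smul_eq_mul, mul_comm] at h1
  exact h1.trans h2

theorem t_STP : S_LPR → S_UNI → S_SLK → S_REB → S_STP := by
  intro hLPR hUNI hSLK hREB μ a b hG d
  have hμ : IsProbabilityMeasure μ := ⟨hG.prob⟩
  obtain ⟨M, hM⟩ := hREB μ a b hG d
  obtain ⟨-, hU2, -⟩ := hUNI μ a b hG
  refine ⟨M, fun S₀ hS0 ρ hρ θ hθ => ?_⟩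
  obtain ⟨p1, hp1, Hp1, -, -⟩ := hU2 (S₀ / 2) (by linarith)
  obtain ⟨p, hp, -, -, Hp⟩ := hU2 ρ hρ
  obtain ⟨q, hq, Hq⟩ := hM (S₀ / 2) (by linarith)
  obtain ⟨y, hy0, hy1, hy2⟩ : ∃ y : ℝ, 0 < y ∧ y ≤ 1 ∧ y ≤ p1 * q :=
    ⟨min 1 (p1 * q), lt_min one_pos (by positivity), min_le_left _ _, min_le_right _ _⟩
  refine ⟨y ^ d * (θ * p / 2), by positivity, ?_⟩
  intro m hm S hS hDom k c hT t b1 b2 b3 i w₀ hw₀
  have hT' : k ≤ d ∧ ∀ i, (c i).Wd d := hT
  have L := fun i => hLPR μ a b hG m (c i)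
  have hPm : ∀ i, IsProbabilityMeasure (law μ b m (c i) false) := fun i => (L i).1 false
  have hPp : ∀ i, IsProbabilityMeasure (law μ b m (c i) true) := fun i => (L i).1 true
  have ef : ext a b (m + 1) (.node k c) false =
      pmax univ fun i : Fin k => a - ext a b m (c i) true := by simp [Pool.Agent.H699.MX.ext]
  have ht0 : 0 ≤ t := (hLPR μ a b hG (m + 1) (.node k c)).2.1.trans b1
  have hta : ∀ i, a - ext a b m (c i) true ≤ t := by
    intro i
    refine le_trans ?_ b1
    rw [ef]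
    exact (Finset.le_fold_max _).2 (Or.inr ⟨i, Finset.mem_univ i, le_rfl⟩)
  have hm0 : ∀ i, law μ b m (c i) false (Set.Iio 0) = 0 := fun i =>
    measure_mono_null (Set.Iio_subset_Iio (L i).2.1) ((L i).2.2.2.2.1 false)
  have hslk := hSLK μ k (fun i => law μ b m (c i) false) (fun i => law μ b m (c i) true) S t i
    hμ hG.atoms hPm hPp hm0 (by linarith) (fun i => hDom (c i) (hT'.2 i)) ht0
  have hb3 : slack S (stepLaw μ k fun i => law μ b m (c i) true)
      (stepLaw μ k fun i => law μ b m (c i) false) t ≤ y ^ d * (θ * p / 2) := b3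
  have hfac : ∀ j ∈ univ.erase i, y ≤
      (μ.prod (law μ b m (c j) false)).real {p | p.1 - p.2 ≤ t + S} := by
    intro j _
    have h1 : (μ.prod (law μ b m (c j) false)).real
        (Set.Icc a (a + S₀ / 2) ×ˢ Set.Ici (ext a b m (c j) true - S₀ / 2)) ≤
        (μ.prod (law μ b m (c j) false)).real {p | p.1 - p.2 ≤ t + S} := by
      refine measureReal_mono ?_
      rintro ⟨w, x⟩ ⟨hw, hx⟩
      have hw2 := hw.2
      have hx2 : ext a b m (c j) true - S₀ / 2 ≤ x := hx
      have h4 := hta j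
      simp only at hw2
      show w - x ≤ t + S
      linarith
    rw [measureReal_prod_prod] at h1
    have h3 : q ≤ (law μ b m (c j) false).real (Set.Ici (ext a b m (c j) true - S₀ / 2)) :=
      (Hq m hm (c j) (hT'.2 j)).2
    exact hy2.trans ((mul_le_mul Hp1 h3 hq.le measureReal_nonneg).trans h1)
  have hprod : y ^ d ≤ ∏ j ∈ univ.erase i,
      (μ.prod (law μ b m (c j) false)).real {p | p.1 - p.2 ≤ t + S} := by
    have hcard : (univ.erase i : Finset (Fin k)).card ≤ d := by
      refine (Finset.card_le_card (Finset.erase_subset _ _)).trans ?_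
      rw [Finset.card_univ, Fintype.card_fin]
      exact hT'.1
    calc y ^ d ≤ y ^ (univ.erase i : Finset (Fin k)).card :=
          pow_le_pow_of_le_one hy0.le hy1 hcard
      _ = ∏ _j ∈ (univ.erase i : Finset (Fin k)), y := by rw [Finset.prod_const]
      _ ≤ _ := Finset.prod_le_prod (fun _ _ => hy0.le) hfac
  have hf0 := fun w => slack_nonneg (hm0 i) (hDom (c i) (hT'.2 i)) (w - t - S)
  have hfi := slack_int (μ := μ) (νm := law μ b m (c i) false) (νp := law μ b m (c i) true)
    (S := S) (t := t)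
  have hI0 : 0 ≤ ∫ w, slack S (law μ b m (c i) false) (law μ b m (c i) true) (w - t - S) ∂μ :=
    integral_nonneg hf0
  have hI : ∫ w, slack S (law μ b m (c i) false) (law μ b m (c i) true) (w - t - S) ∂μ
      ≤ θ * p / 2 := by
    have h1 := mul_le_mul_of_nonneg_right hprod hI0
    have h2 : y ^ d * ∫ w, slack S (law μ b m (c i) false) (law μ b m (c i) true) (w - t - S) ∂μ
        ≤ y ^ d * (θ * p / 2) := by linarith
    exact le_of_mul_le_mul_left h2 (by positivity)
  by_contra hcon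
  push Not at hcon
  have h1 := lower hf0 hfi (c := θ) (x := w₀ - ρ) (y := w₀ + ρ) (fun w hw1 hw2 =>
    (hcon w (abs_le.2 ⟨by linarith, by linarith⟩)).le)
  have h2 := Hp w₀ hw₀
  have h3 := mul_le_mul_of_nonneg_left h2 hθ.le
  have h4 : 0 < θ * p := by positivity
  linarith

end Pool.Agent.H111.MX.STP
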